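import Pool.Agent.helper54.UG.Spec2

/-!
# Project ug: KLF (linear functionals over a division algebra)
-/

set_option autoImplicit false

namespace Pool.Agent.UG

open Matrix Pool.Agent.H48SL

theorem KLF : KLF_stmt := by
  intro n D _ _ _ f hn
  let φ : D →ₐ[ℚ] Module.End ℚ (Fin n → ℚ) :=
    (Matrix.toLinAlgEquiv' : MQ n ≃ₐ[ℚ] ((Fin n → ℚ) →ₗ[ℚ] (Fin n → ℚ))).toAlgHom.comp f
  let iM : Module D (Fin n → ℚ) := Module.compHom (Fin n → ℚ) φ.toRingHom
  have hs : ∀ (c : D) (v : Fin n → ℚ), c • v = f c *ᵥ v := fun c v => rfl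
  have iT : IsScalarTower ℚ D (Fin n → ℚ) :=
    ⟨fun q c v => by rw [hs, hs, map_smul, Matrix.smul_mulVec]⟩
  have iF : Module.Finite D (Fin n → ℚ) := Module.Finite.of_restrictScalars_finite ℚ D _
  have hr : Module.finrank ℚ D * Module.finrank D (Fin n → ℚ) = n := by
    rw [Module.finrank_mul_finrank ℚ D (Fin n → ℚ), Module.finrank_fin_fun]
  have h2 : 2 ≤ Module.finrank D (Fin n → ℚ) := by
    by_contra hcon
    have h3 : Module.finrank D (Fin n → ℚ) ≤ 1 := by omega
    have h4 := Nat.mul_le_mul_left (Module.finrank ℚ D) h3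
    omega
  have h5 : 2 * Module.finrank ℚ D ≤ n := by
    have h4 := Nat.mul_le_mul_left (Module.finrank ℚ D) h2
    omega
  let b := Module.finBasis D (Fin n → ℚ)
  let ξ : Fin (Module.finrank D (Fin n → ℚ)) → ((Fin n → ℚ) →ₗ[ℚ] D) := fun i =>
    (b.coord i).restrictScalars ℚ
  have hξ : ∀ i v, ξ i v = b.coord i v := fun i v => rfl
  have hξs : ∀ i c v, ξ i (f c *ᵥ v) = c * ξ i v := by
    intro i c v
    rw [hξ, hξ, ← hs, map_smul, smul_eq_mul]
  have hξ1 : ∀ i, ξ i (b i) = 1 := fun i => by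
    rw [hξ, Module.Basis.coord_apply, Module.Basis.repr_self, Finsupp.single_eq_same]
  have hξ0 : ∀ i j, i ≠ j → ξ i (b j) = 0 := fun i j h => by
    rw [hξ, Module.Basis.coord_apply, Module.Basis.repr_self, Finsupp.single_eq_of_ne h]
  refine ⟨h5, ?_, ?_⟩
  · have h01 : (⟨0, by omega⟩ : Fin (Module.finrank D (Fin n → ℚ))) ≠ ⟨1, by omega⟩ := by
      intro h
      have := congrArg Fin.val h
      simp at this
    exact ⟨ξ ⟨0, by omega⟩, ξ ⟨1, by omega⟩, b ⟨0, by omega⟩, b ⟨1, by omega⟩, hξs _, hξs _, hξ1 _,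
      hξ0 _ _ h01, hξ0 _ _ (Ne.symm h01), hξ1 _⟩
  · intro v hv
    obtain ⟨i, hi⟩ : ∃ i, ξ i v ≠ 0 := by
      by_contra hcon
      push Not at hcon
      apply hv
      apply b.repr.injective
      rw [map_zero]
      ext i
      exact hcon i
    obtain ⟨j, hj⟩ : ∃ j, i ≠ j := by
      by_cases h : i = ⟨0, by omega⟩
      · refine ⟨⟨1, by omega⟩, ?_⟩
        rw [h]
        intro h'
        have := congrArg Fin.val h'
        simp at this
      · exact ⟨_, h⟩
    refine ⟨ξ j - (LinearMap.mulRight ℚ ((ξ i v)⁻¹ * ξ j v)) ∘ₗ ξ i, b j, ?_, ?_, ?_⟩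
    · intro c w
      rw [LinearMap.sub_apply, LinearMap.sub_apply, LinearMap.comp_apply, LinearMap.comp_apply,
        LinearMap.mulRight_apply, LinearMap.mulRight_apply, hξs, hξs, mul_sub, mul_assoc]
    · rw [LinearMap.sub_apply, LinearMap.comp_apply, LinearMap.mulRight_apply, ← mul_assoc,
        mul_inv_cancel₀ hi, one_mul, sub_self]
    · rw [LinearMap.sub_apply, LinearMap.comp_apply, LinearMap.mulRight_apply, hξ0 i j hj, zero_mul,
        sub_zero, hξ1]

end Pool.Agent.UG
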